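import Pool.Agent.Q156.MT.Fin

/-!
# Fibonacci and Lucas primes: the joint laws for all random sets of indices near the model

In the usual model the Fibonacci number `U_q` and the Lucas number `V_q` are prime, independently for all primes `q` and for the two
sequences, with probability `c log q / q`, `c = e ^ γ / log φ` (numbers of size `φ ^ q` whose prime factors are `± 1` modulo `q`).
Here no independence is assumed: the pair of the sets of the prime indices of the primes of the two sequences is any pair of random sets of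
primes, and the relative entropy `D x` of the law of the pair up to `x` with respect to the model measures the distance from the model.
The pair `(A, B)` is coded by one random set `W` of integers: `2 q ∈ W` if `q ∈ A` and `2 q + 1 ∈ W` if `q ∈ B`.
-/

set_option autoImplicit false

namespace Pool.Agent.Results.MP_5893d7_nt.JointLawsNearTheModel

open Finset MeasureTheory Filter
open scoped Topology

/-- The constant `e ^ γ / log φ`, `φ` the golden ratio. -/
noncomputable def cF : ℝ := Real.exp Real.eulerMascheroniConstant / Real.log Real.goldenRatio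

/-- The probability of the primality of the terms with the prime index `q` in the model, at most `1 / 2`. -/
noncomputable def rate (q : ℕ) : ℝ := min (1 / 2) (cF * Real.log q / q)

/-- The first set of the coded pair: the prime indices of the Fibonacci primes. -/
def fib (W : Set ℕ) : Set ℕ := {q | q.Prime ∧ 2 * q ∈ W}

/-- The second set of the coded pair: the prime indices of the Lucas primes. -/
def luc (W : Set ℕ) : Set ℕ := {q | q.Prime ∧ 2 * q + 1 ∈ W}

/-- The number of the elements of `S` below `x`. -/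
noncomputable def count (S : Set ℕ) (x : ℕ) : ℕ := {q | q ∈ S ∧ q < x}.ncard

/-- `W` is a random set of integers. -/
def IsRandom {Ω : Type} [MeasurableSpace Ω] (W : Ω → Set ℕ) : Prop := ∀ n, MeasurableSet {ω | n ∈ W ω}

/-- The codes `2 q`, `2 q + 1` of the terms with prime indices `q < x`. -/
def codes (x : ℕ) : Finset ℕ := (range (2 * x)).filter (fun n => (n / 2).Prime)

/-- The probability that exactly the elements of `T` are in `W`, among the codes up to `x`. -/
noncomputable def law {Ω : Type} [MeasurableSpace Ω] (μ : Measure Ω) (W : Ω → Set ℕ) (x : ℕ) (T : Finset ℕ) : ℝ :=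
  μ.real {ω | ∀ n ∈ codes x, (n ∈ W ω ↔ n ∈ T)}

/-- The same probability in the model. -/
noncomputable def model (x : ℕ) (T : Finset ℕ) : ℝ := ∏ n ∈ codes x, if n ∈ T then rate (n / 2) else 1 - rate (n / 2)

/-- The relative entropy (nats) of the law of the pair up to `x` with respect to the model. -/
noncomputable def D {Ω : Type} [MeasurableSpace Ω] (μ : Measure Ω) (W : Ω → Set ℕ) (x : ℕ) : ℝ :=
  ∑ T ∈ (codes x).powerset, law μ W x T * Real.log (law μ W x T / model x T)

/-- All random pairs with relative entropies at most `d` have the property `E` with probability at most `t`. -/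
def Bounded (d : ℕ → ℝ) (t : ℝ) (E : Set ℕ → Prop) : Prop :=
  ∀ (Ω : Type) [MeasurableSpace Ω] (μ : Measure Ω) [IsProbabilityMeasure μ] (W : Ω → Set ℕ), IsRandom W →
    (∀ᶠ x : ℕ in atTop, D μ W x ≤ d x) → μ.real {ω | E (W ω)} ≤ t

/-- `liminf d x / log x ≤ a`. -/
def Below (d : ℕ → ℝ) (a : ℝ) : Prop := ∀ ε : ℝ, 0 < ε → ∃ᶠ x : ℕ in atTop, d x ≤ (a + ε) * Real.log x

/-- The price of the density `u` in place of `cF`. -/
noncomputable def price (u : ℝ) : ℝ := u * Real.log (u / cF) - u + cF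

theorem cF_pos : 0 < cF := by
  unfold cF
  have := Real.log_pos Real.one_lt_goldenRatio
  positivity

theorem codes_eq (x : ℕ) : codes x = Pool.Agent.Q120.ME.ind {n : ℕ | (n / 2).Prime} (2 * x) := by
  ext n
  rw [Pool.Agent.Q156.MT.mem_ind]
  unfold codes
  rw [mem_filter, mem_range]
  rfl

theorem D_eq {Ω : Type} [MeasurableSpace Ω] (μ : Measure Ω) (W : Ω → Set ℕ) (x : ℕ) : D μ W x = Pool.Agent.Q156.MT.DD cF μ W x := by
  unfold D law model
  rw [codes_eq]
  rfl

theorem count_eq (S : Set ℕ) (x : ℕ) :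
    count (fib S) x = Pool.Agent.Q156.MT.MM (Pool.Agent.Q156.MT.pull 0 S) x ∧
    count (luc S) x = Pool.Agent.Q156.MT.MM (Pool.Agent.Q156.MT.pull 1 S) x := by
  classical
  constructor
  · unfold count Pool.Agent.Q156.MT.MM Pool.Agent.Q120.ME.cnt
    rw [← Set.ncard_coe_finset]
    congr 1
    ext q
    rw [mem_coe, mem_filter, Pool.Agent.Q156.MT.mem_ind]
    constructor
    · rintro ⟨⟨h1, h2⟩, h3⟩
      exact ⟨⟨h3, h1⟩, h2⟩
    · rintro ⟨⟨h3, h1⟩, h2⟩
      exact ⟨⟨h1, h2⟩, h3⟩
  · unfold count Pool.Agent.Q156.MT.MM Pool.Agent.Q120.ME.cnt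
    rw [← Set.ncard_coe_finset]
    congr 1
    ext q
    rw [mem_coe, mem_filter, Pool.Agent.Q156.MT.mem_ind]
    constructor
    · rintro ⟨⟨h1, h2⟩, h3⟩
      exact ⟨⟨h3, h1⟩, h2⟩
    · rintro ⟨⟨h3, h1⟩, h2⟩
      exact ⟨⟨h1, h2⟩, h3⟩

theorem fin_eq (S : Set ℕ) : ((fib S).Finite ↔ (S ∩ Pool.Agent.Q156.MT.UU 0).Finite) ∧
    ((luc S).Finite ↔ (S ∩ Pool.Agent.Q156.MT.UU 1).Finite) := by
  rw [Pool.Agent.Q156.MT.fin_iff, Pool.Agent.Q156.MT.fin_iff]
  have h0 : fib S = Pool.Agent.Q156.MT.pull (0 : Fin 2).val S ∩ Pool.Agent.Q156.MT.Pr := by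
    ext q
    exact and_comm
  have h1 : luc S = Pool.Agent.Q156.MT.pull (1 : Fin 2).val S ∩ Pool.Agent.Q156.MT.Pr := by
    ext q
    exact and_comm
  rw [h0, h1]
  exact ⟨Iff.rfl, Iff.rfl⟩

theorem bounded_iff (d : ℕ → ℝ) (t : ℝ) (E : Set ℕ → Prop) : Bounded d t E ↔ Pool.Agent.Q156.MT.Bounded cF d t E := by
  unfold Bounded Pool.Agent.Q156.MT.Bounded
  simp only [D_eq]
  exact Iff.rfl

theorem one (d : ℕ → ℝ) {t : ℝ} (ht : 0 ≤ t) (ht1 : t < 1) :
    (Bounded d t (fun W => (fib W).Finite ∨ (luc W).Finite) ↔ Below d (cF * t)) ∧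
    (Bounded d t (fun W => (fib W).Finite) ↔ Below d (cF * t)) ∧
    (Bounded d t (fun W => (luc W).Finite) ↔ Below d (cF * t)) ∧
    (Bounded d t (fun W => (fib W).Finite ∧ (luc W).Finite) ↔ Below d (2 * cF * t)) := by
  have hc := cF_pos
  refine ⟨?_, ?_, ?_, ?_⟩
  · rw [bounded_iff]
    have h := Pool.Agent.Q156.MT.thr hc {({0} : Finset (Fin 2)), {1}} (S₀ := {0}) (by simp) (by simp) (by
      intro S hS
      simp only [mem_insert, mem_singleton] at hS
      rcases hS with rfl | rfl <;> simp) d ht ht1 (fun W => (fib W).Finite ∨ (luc W).Finite) (by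
      intro S
      rw [(fin_eq S).1, (fin_eq S).2]
      simp)
    rw [card_singleton, Nat.cast_one, one_mul] at h
    exact h
  · rw [bounded_iff]
    have h := Pool.Agent.Q156.MT.thr hc {({0} : Finset (Fin 2))} (S₀ := {0}) (by simp) (by simp) (by
      intro S hS
      simp only [mem_singleton] at hS
      rw [hS]) d ht ht1 (fun W => (fib W).Finite) (by
      intro S
      rw [(fin_eq S).1]
      simp)
    rw [card_singleton, Nat.cast_one, one_mul] at h
    exact h
  · rw [bounded_iff]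
    have h := Pool.Agent.Q156.MT.thr hc {({1} : Finset (Fin 2))} (S₀ := {1}) (by simp) (by simp) (by
      intro S hS
      simp only [mem_singleton] at hS
      rw [hS]) d ht ht1 (fun W => (luc W).Finite) (by
      intro S
      rw [(fin_eq S).2]
      simp)
    rw [card_singleton, Nat.cast_one, one_mul] at h
    exact h
  · rw [bounded_iff]
    have h := Pool.Agent.Q156.MT.thr hc {(univ : Finset (Fin 2))} (S₀ := univ) (by simp) (by simp) (by
      intro S hS
      simp only [mem_singleton] at hS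
      rw [hS]) d ht ht1 (fun W => (fib W).Finite ∧ (luc W).Finite) (by
      intro S
      rw [(fin_eq S).1, (fin_eq S).2]
      simp [Fin.forall_fin_two])
    rw [card_univ, Fintype.card_fin] at h
    exact_mod_cast h

theorem two {d : ℕ → ℝ} (hm : Monotone d) (hd : ∀ n, 0 ≤ d n) :
    (∀ (Ω : Type) [MeasurableSpace Ω] (μ : Measure Ω) [IsProbabilityMeasure μ] (W : Ω → Set ℕ), IsRandom W →
      (∀ᶠ x : ℕ in atTop, D μ W x ≤ d x) →
      ∀ᵐ ω ∂μ, Tendsto (fun x : ℕ => (count (fib (W ω)) x : ℝ) / Real.log x) atTop (𝓝 cF) ∧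
        Tendsto (fun x : ℕ => (count (luc (W ω)) x : ℝ) / Real.log x) atTop (𝓝 cF)) ↔
    Summable (fun q : ℕ => if q.Prime then d q / (q * Real.log q) else 0) := by
  rw [← Pool.Agent.Q156.MT.law cF_pos hm hd]
  simp only [D_eq, (count_eq _ _).1, (count_eq _ _).2, Fin.forall_fin_two]
  exact Iff.rfl

theorem three {δ : ℝ} (hδ : 0 ≤ δ) (ν : Measure (ℝ × ℝ)) [IsProbabilityMeasure ν] :
    (∃ (Ω : Type) (_ : MeasurableSpace Ω) (μ : Measure Ω) (_ : IsProbabilityMeasure μ) (W : Ω → Set ℕ) (L : Ω → ℝ × ℝ),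
      IsRandom W ∧ (∀ ε : ℝ, 0 < ε → ∀ᶠ x : ℕ in atTop, D μ W x ≤ (δ + ε) * Real.log x) ∧ Measurable L ∧ μ.map L = ν ∧
      ∀ᵐ ω ∂μ, Tendsto (fun x : ℕ => (count (fib (W ω)) x : ℝ) / Real.log x) atTop (𝓝 (L ω).1) ∧
        Tendsto (fun x : ℕ => (count (luc (W ω)) x : ℝ) / Real.log x) atTop (𝓝 (L ω).2)) ↔
    ν {u | u.1 < 0 ∨ u.2 < 0} = 0 ∧ ∫⁻ u, ENNReal.ofReal (price u.1 + price u.2) ∂ν ≤ ENNReal.ofReal δ := by
  obtain ⟨e, he⟩ : ∃ e : (Fin 2 → ℝ) ≃ᵐ ℝ × ℝ, e = MeasurableEquiv.finTwoArrow := ⟨_, rfl⟩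
  have he1 : ∀ a, e a = (a 0, a 1) := by
    intro a
    rw [he]
    rfl
  have he2 : ∀ u, e.symm u 0 = u.1 ∧ e.symm u 1 = u.2 := by
    intro u
    have h1 := e.apply_symm_apply u
    rw [he1] at h1
    exact ⟨congrArg Prod.fst h1, congrArg Prod.snd h1⟩
  haveI : IsProbabilityMeasure (ν.map e.symm) := Measure.isProbabilityMeasure_map e.symm.measurable.aemeasurable
  have h := Pool.Agent.Q156.MT.laws cF_pos hδ (ν.map e.symm)
  have hneg : (ν.map e.symm) {a | ∃ i, a i < 0} = ν {u | u.1 < 0 ∨ u.2 < 0} := by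
    rw [MeasurableEquiv.map_apply]
    congr 1
    ext u
    simp only [Set.mem_preimage, Set.mem_ofPred_eq, Fin.exists_fin_two, he2]
  have hint : ∫⁻ a, ENNReal.ofReal (∑ i, (a i * Real.log (a i / cF) - a i + cF)) ∂(ν.map e.symm) =
      ∫⁻ u, ENNReal.ofReal (price u.1 + price u.2) ∂ν := by
    rw [lintegral_map (Pool.Agent.Q156.MT.meas_hc cF).ennreal_ofReal e.symm.measurable]
    apply lintegral_congr
    intro u
    rw [Fin.sum_univ_two, (he2 u).1, (he2 u).2]
    rfl
  rw [hneg, hint] at h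
  rw [← h]
  constructor
  · rintro ⟨Ω, m, μ, hμ, W, L, hW, hD, hL, hmap, hlim⟩
    refine ⟨Ω, m, μ, hμ, W, fun ω => e.symm (L ω), hW, ?_, e.symm.measurable.comp hL, ?_, ?_⟩
    · simp only [← D_eq]
      exact hD
    · rw [← hmap, Measure.map_map e.symm.measurable hL]
      rfl
    · filter_upwards [hlim] with ω hω
      rw [Fin.forall_fin_two, (he2 (L ω)).1, (he2 (L ω)).2]
      simp only [(count_eq _ _).1, (count_eq _ _).2] at hω
      exact hω
  · rintro ⟨Ω, m, μ, hμ, W, L, hW, hD, hL, hmap, hlim⟩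
    refine ⟨Ω, m, μ, hμ, W, fun ω => e (L ω), hW, ?_, e.measurable.comp hL, ?_, ?_⟩
    · simp only [D_eq]
      exact hD
    · have h1 : μ.map (fun ω => e (L ω)) = (μ.map L).map e := (Measure.map_map e.measurable hL).symm
      rw [h1, hmap, Measure.map_map e.measurable e.symm.measurable]
      have h2 : (⇑e ∘ ⇑e.symm) = id := by
        funext u
        exact e.apply_symm_apply u
      rw [h2, Measure.map_id]
    · filter_upwards [hlim] with ω hω
      rw [Fin.forall_fin_two] at hω
      simp only [(count_eq _ _).1, (count_eq _ _).2, he1]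
      exact hω

/-- (1) For every `d` and `0 ≤ t < 1`: for all random pairs with `D x ≤ d x` for large `x` the probability that one of the sets is finite
(that the first is, that the second is) is at most `t` iff `liminf d x / log x ≤ c t`, and the probability that both are finite is at most `t`
iff `liminf d x / log x ≤ 2 c t`. (2) For nondecreasing `d ≥ 0` for all these pairs the numbers of elements of both sets up to `x` are almost
surely `~ c log x` iff `∑_q d q / (q log q) < ∞`. (3) A probability measure on the plane is the law of the limit of (number, number) `/ log x` for some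
random pair with `D x ≤ (δ + o(1)) log x` iff it lives on the quadrant `u, v ≥ 0` and the integral of `price u + price v` is at most `δ`. -/
theorem result :
    (∀ (d : ℕ → ℝ) (t : ℝ), 0 ≤ t → t < 1 →
      (Bounded d t (fun W => (fib W).Finite ∨ (luc W).Finite) ↔ Below d (cF * t)) ∧
      (Bounded d t (fun W => (fib W).Finite) ↔ Below d (cF * t)) ∧
      (Bounded d t (fun W => (luc W).Finite) ↔ Below d (cF * t)) ∧
      (Bounded d t (fun W => (fib W).Finite ∧ (luc W).Finite) ↔ Below d (2 * cF * t))) ∧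
    (∀ d : ℕ → ℝ, Monotone d → (∀ n, 0 ≤ d n) →
      ((∀ (Ω : Type) [MeasurableSpace Ω] (μ : Measure Ω) [IsProbabilityMeasure μ] (W : Ω → Set ℕ), IsRandom W →
        (∀ᶠ x : ℕ in atTop, D μ W x ≤ d x) →
        ∀ᵐ ω ∂μ, Tendsto (fun x : ℕ => (count (fib (W ω)) x : ℝ) / Real.log x) atTop (𝓝 cF) ∧
          Tendsto (fun x : ℕ => (count (luc (W ω)) x : ℝ) / Real.log x) atTop (𝓝 cF)) ↔
      Summable (fun q : ℕ => if q.Prime then d q / (q * Real.log q) else 0))) ∧
    ∀ δ : ℝ, 0 ≤ δ → ∀ ν : Measure (ℝ × ℝ), IsProbabilityMeasure ν →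
      ((∃ (Ω : Type) (_ : MeasurableSpace Ω) (μ : Measure Ω) (_ : IsProbabilityMeasure μ) (W : Ω → Set ℕ) (L : Ω → ℝ × ℝ),
        IsRandom W ∧ (∀ ε : ℝ, 0 < ε → ∀ᶠ x : ℕ in atTop, D μ W x ≤ (δ + ε) * Real.log x) ∧ Measurable L ∧ μ.map L = ν ∧
        ∀ᵐ ω ∂μ, Tendsto (fun x : ℕ => (count (fib (W ω)) x : ℝ) / Real.log x) atTop (𝓝 (L ω).1) ∧
          Tendsto (fun x : ℕ => (count (luc (W ω)) x : ℝ) / Real.log x) atTop (𝓝 (L ω).2)) ↔
      ν {u | u.1 < 0 ∨ u.2 < 0} = 0 ∧ ∫⁻ u, ENNReal.ofReal (price u.1 + price u.2) ∂ν ≤ ENNReal.ofReal δ) :=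
  ⟨fun d _ ht ht1 => one d ht ht1, fun _ hm hd => two hm hd, fun _ hδ ν _ => three hδ ν⟩

end Pool.Agent.Results.MP_5893d7_nt.JointLawsNearTheModel
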