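import Mathlib
import Pool.Agent.Q160.TB6
import Pool.Agent.H447R2.ML.Spec

set_option autoImplicit false

/-!
# Primes near the Fibonacci and the Lucas numbers, in intervals of length `φ ^ (s n)`

Let `x` be the sequence of the Fibonacci or of the Lucas numbers, `φ` the golden ratio and
`lam = log φ / log 2`, so that `x p` has about `lam * p` binary digits.  For `0 < s < 1` and
`0 ≤ θ < 1` let `N x s θ p = x p + ⌊θ 2 ^ ⌊s lam p⌋⌋`, an integer of the interval
`[x p, x p + φ ^ (s p))`, and let `M S x s θ n` be the number of primes `p ≤ n` in `S` for which the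
`p`-rough part of `N x s θ p` is prime; for `θ = 0` these are the numbers `x p` themselves.  We prove,
with Hoheisel's theorem, that there are `δ, c, C > 0` such that for both sequences, every `s` in
`[1 - δ, 1)` and almost every `θ` we have `c log n ≤ M x s θ n ≤ C log n` for all large `n`, with the
dichotomy and the same bounds for every set of primes.
-/

namespace Pool.Agent.Results.MP_5893d7_nt.LeadingDigits

open Filter Topology MeasureTheory

/-- The Lucas numbers. -/
def L : ℕ → ℕ
  | 0 => 2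
  | 1 => 1
  | (n + 2) => L (n + 1) + L n

/-- The product, with multiplicity, of the prime factors of `m` that are larger than `p`. -/
def roughPart (p m : ℕ) : ℕ := (m.primeFactorsList.filter (fun r => p < r)).prod

/-- `log φ / log 2`, `φ` the golden ratio. -/
noncomputable def lam : ℝ := Real.log Real.goldenRatio / Real.log 2

/-- An integer of the interval `[x p, x p + φ ^ (s p))`. -/
noncomputable def N (x : ℕ → ℕ) (s θ : ℝ) (p : ℕ) : ℕ := x p + ⌊θ * (2 : ℝ) ^ ⌊s * (lam * p)⌋₊⌋₊

open Classical in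
/-- The number of primes `p ≤ n` in `S` for which the `p`-rough part of `N x s θ p` is prime. -/
noncomputable def M (S : Set ℕ) (x : ℕ → ℕ) (s θ : ℝ) (n : ℕ) : ℕ :=
  ((Finset.range (n + 1)).filter (fun p => p.Prime ∧ p ∈ S ∧ (roughPart p (N x s θ p)).Prime)).card

open Classical in
/-- The sum of `log p / p` over the primes `p ≤ n` in `S`. -/
noncomputable def V (S : Set ℕ) (n : ℕ) : ℝ :=
  ∑ p ∈ (Finset.range (n + 1)).filter (fun p => p.Prime ∧ p ∈ S), Real.log p / p

lemma V_eq (S : Set ℕ) (n : ℕ) : V S n = Pool.Agent.TH888.R.VS S n := by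
  classical
  unfold V Pool.Agent.TH888.R.VS
  rw [Finset.sum_filter]
  refine Finset.sum_congr rfl fun p _ => ?_
  by_cases h : p.Prime ∧ p ∈ S
  · rw [if_pos h, if_pos ⟨h.2, h.1⟩]
    rfl
  · rw [if_neg h, if_neg fun h1 => h ⟨h1.2, h1.1⟩]

lemma lam_pos : 0 < lam :=
  div_pos (Real.log_pos Real.one_lt_goldenRatio) (Real.log_pos one_lt_two)

lemma fib_low (n : ℕ) : Real.goldenRatio ^ n ≤ Nat.fib (n + 2) := by
  induction n using Nat.twoStepInduction with
  | zero => norm_num
  | one =>
    have h : Nat.fib (1 + 2) = 2 := rfl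
    rw [h, pow_one]
    exact Real.goldenRatio_lt_two.le
  | more n h1 h2 =>
    have h3 : Nat.fib (n + 2 + 2) = Nat.fib (n + 2) + Nat.fib (n + 1 + 2) := Nat.fib_add_two
    rw [h3, pow_add, Real.goldenRatio_sq]
    push_cast
    rw [pow_succ] at h2
    push_cast at h1 h2
    nlinarith

lemma fib_up (n : ℕ) : (Nat.fib n : ℝ) ≤ Real.goldenRatio ^ n := by
  induction n using Nat.twoStepInduction with
  | zero => norm_num
  | one =>
    rw [pow_one]
    simpa using Real.one_lt_goldenRatio.le
  | more n h1 h2 =>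
    rw [Nat.fib_add_two, pow_add, Real.goldenRatio_sq]
    push_cast
    rw [pow_succ] at h2
    nlinarith

lemma luc_low (n : ℕ) : Nat.fib n ≤ L n := by
  induction n using Nat.twoStepInduction with
  | zero => norm_num [L]
  | one => norm_num [L]
  | more n h1 h2 =>
    rw [Nat.fib_add_two]
    show _ ≤ L (n + 1) + L n
    omega

lemma luc_up (n : ℕ) : (L n : ℝ) ≤ 2 * Real.goldenRatio ^ n := by
  induction n using Nat.twoStepInduction with
  | zero => norm_num [L]
  | one =>
    have h : L 1 = 1 := rfl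
    rw [h, pow_one]
    push_cast
    linarith [Real.one_lt_goldenRatio]
  | more n h1 h2 =>
    have h : L (n + 2) = L (n + 1) + L n := rfl
    rw [h, pow_add, Real.goldenRatio_sq]
    push_cast
    rw [pow_succ] at h2
    nlinarith

lemma fib_eq (n : ℕ) : Pool.Agent.H447R2.ML.U 1 n = Nat.fib n := by
  induction n using Nat.twoStepInduction with
  | zero => rfl
  | one => rfl
  | more n h1 h2 =>
    rw [Pool.Agent.H447R2.ML.U_add_two, h1, h2, Nat.fib_add_two]
    ring

lemma luc_eq (n : ℕ) : Pool.Agent.H447R2.ML.V 1 n = L n := by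
  induction n using Nat.twoStepInduction with
  | zero => rfl
  | one => rfl
  | more n h1 h2 =>
    show _ = L (n + 1) + L n
    rw [Pool.Agent.H447R2.ML.V_add_two, h1, h2]
    ring

/-- The Fibonacci numbers. -/
lemma W_fib {p : ℕ} (hp : p.Prime) (h5 : 5 < p) : roughPart p (Nat.fib p) = Nat.fib p := by
  have hd : ¬ p ∣ 1 ^ 2 + 4 := by
    intro h
    have := Nat.le_of_dvd (by norm_num) h
    omega
  have h := Pool.Agent.H447R2.ML.rough_U 1 one_pos hp (by omega) hd
    (x := ((Nat.fib p : ℕ) : ℝ)) (by rw [fib_eq])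
  rw [fib_eq, Nat.floor_natCast] at h
  exact h

/-- The Lucas numbers. -/
lemma W_luc {p : ℕ} (hp : p.Prime) (h5 : 5 < p) : roughPart p (L p) = L p := by
  have hd : ¬ p ∣ 1 := fun h => hp.one_lt.ne' (Nat.dvd_one.1 h)
  have h : Pool.Agent.H305R2.roughPart p (L p) = L p := by
    refine Pool.Agent.H447R2.ML.roughPart_eq_self ?_ fun q hq h => ?_
    · rw [← luc_eq]
      exact (Pool.Agent.H447R2.ML.V_pos 1 p one_pos).ne'
    · rw [← luc_eq] at h
      exact Pool.Agent.H447R2.ML.lt_of_dvd_V 1 hp (by omega) hd hq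
        (fun h' => hq.one_lt.ne' (Nat.dvd_one.1 h')) h
  exact h

lemma M_eq (S : Set ℕ) (x : ℕ → ℕ) (s θ : ℝ) (n : ℕ) :
    M S x s θ n = Pool.Agent.TH888.R.cS S (N x s θ) n := by
  classical
  unfold M Pool.Agent.TH888.R.cS
  rfl

/-- The numbers for `θ = 0` are the Fibonacci and the Lucas numbers, their own `p`-rough parts; for
almost every `θ` the counting function has the order of magnitude `log n`, and for sets of primes the
order of magnitude of `V`. -/
theorem result :
    (∀ (x : ℕ → ℕ) (s : ℝ) (p : ℕ), N x s 0 p = x p) ∧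
    (∀ p : ℕ, p.Prime → 5 < p → roughPart p (Nat.fib p) = Nat.fib p ∧ roughPart p (L p) = L p) ∧
    ∃ δ c C : ℝ, 0 < δ ∧ δ < 1 ∧ 0 < c ∧ 0 < C ∧ ∀ x : ℕ → ℕ, (x = Nat.fib ∨ x = L) →
      ∀ s : ℝ, 1 - δ ≤ s → s < 1 →
      (∀ᵐ θ : ℝ, θ ∈ Set.Ico (0 : ℝ) 1 → ∀ᶠ n : ℕ in atTop,
        c * Real.log n ≤ M Set.univ x s θ n ∧ (M Set.univ x s θ n : ℝ) ≤ C * Real.log n) ∧
      (∀ S : Set ℕ, Tendsto (V S) atTop atTop → ∀ᵐ θ : ℝ, θ ∈ Set.Ico (0 : ℝ) 1 →
        ∀ᶠ n : ℕ in atTop, c * V S n ≤ M S x s θ n ∧ (M S x s θ n : ℝ) ≤ C * V S n) ∧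
      (∀ S : Set ℕ, ∀ᵐ θ : ℝ, θ ∈ Set.Ico (0 : ℝ) 1 →
        ({p : ℕ | p.Prime ∧ p ∈ S ∧ (roughPart p (N x s θ p)).Prime}.Infinite ↔
          Tendsto (V S) atTop atTop)) := by
  classical
  have hV : ∀ S, V S = Pool.Agent.TH888.R.VS S := fun S => funext fun n => V_eq S n
  refine ⟨fun x s p => ?_, fun p hp h5 => ⟨W_fib hp h5, W_luc hp h5⟩, ?_⟩
  · unfold N
    simp
  · obtain ⟨δ, hδ, hδ1, h⟩ := Pool.Agent.Q160.TB.plus_law
    obtain ⟨c1, c2, hc1, hc2, hpt⟩ := h 2 le_rfl lam lam_pos
    refine ⟨δ, c1 / 2, 2 * c2, hδ, hδ1, by positivity, by positivity, fun x hx s hs hs1 => ?_⟩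
    have hφ0 : 0 < Real.goldenRatio := Real.goldenRatio_pos
    have hφ1 : 1 < Real.goldenRatio := Real.one_lt_goldenRatio
    have hl2 : 0 < Real.log 2 := Real.log_pos one_lt_two
    have hlow : ∀ n, Nat.fib n ≤ x n := by
      rcases hx with rfl | rfl
      · exact fun n => le_rfl
      · exact luc_low
    have hup : ∀ n, (x n : ℝ) ≤ 2 * Real.goldenRatio ^ n := by
      rcases hx with rfl | rfl
      · intro n
        have := fib_up n
        have h0 : 0 < Real.goldenRatio ^ n := by positivity
        linarith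
      · exact luc_up
    have hexp : ∀ p : ℝ, Real.exp (Real.log ((2 : ℕ) : ℝ) * (lam * p)) =
        Real.exp (Real.log Real.goldenRatio * p) := by
      intro p
      congr 1
      unfold lam
      push_cast
      field_simp
    have hall : ∀ S : Set ℕ, ∀ᵐ θ : ℝ, θ ∈ Set.Ico (0 : ℝ) 1 →
        Pool.Agent.Q160.TB.PtO (N x s θ) c1 c2 S := by
      intro S
      have h3 := hpt s hs hs1 x 2 (by
        have hev : ∀ᶠ p : ℕ in atTop, 2 / (1 - s) ≤ (p : ℝ) :=
          tendsto_natCast_atTop_atTop.eventually_ge_atTop _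
        filter_upwards [hev, eventually_ge_atTop 2] with p hp hp2
        rw [div_le_iff₀ (by linarith)] at hp
        have hsl : 0 ≤ s * (lam * p) :=
          mul_nonneg (by linarith) (mul_nonneg lam_pos.le (Nat.cast_nonneg p))
        have h4 : ((2 ^ ⌊s * (lam * (p : ℝ))⌋₊ : ℕ) : ℝ) ≤ (x p : ℝ) := by
          calc ((2 ^ ⌊s * (lam * (p : ℝ))⌋₊ : ℕ) : ℝ)
              = Real.exp (Real.log 2 * (⌊s * (lam * (p : ℝ))⌋₊ : ℕ)) := by
                rw [mul_comm (Real.log 2), Real.exp_nat_mul, Real.exp_log two_pos]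
                push_cast
                ring
            _ ≤ Real.exp (Real.log 2 * (s * (lam * p))) := by
                refine Real.exp_le_exp.2 (mul_le_mul_of_nonneg_left (Nat.floor_le hsl) hl2.le)
            _ = Real.exp (Real.log Real.goldenRatio * (s * p)) := by
                congr 1
                unfold lam
                field_simp
            _ ≤ Real.exp (Real.log Real.goldenRatio * ((p - 2 : ℕ) : ℝ)) := by
                refine Real.exp_le_exp.2 (mul_le_mul_of_nonneg_left ?_ (Real.log_pos hφ1).le)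
                rw [Nat.cast_sub hp2]
                push_cast
                linarith
            _ = Real.goldenRatio ^ (p - 2) := by
                rw [mul_comm (Real.log Real.goldenRatio), Real.exp_nat_mul, Real.exp_log hφ0]
            _ ≤ Nat.fib (p - 2 + 2) := fib_low (p - 2)
            _ = Nat.fib p := by rw [Nat.sub_add_cancel hp2]
            _ ≤ x p := by exact_mod_cast hlow p
        exact_mod_cast h4) (by
        refine Eventually.of_forall fun p => ?_
        rw [hexp, mul_comm (Real.log Real.goldenRatio), Real.exp_nat_mul, Real.exp_log hφ0]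
        exact hup p) S
      simp only [Nat.cast_ofNat] at h3
      exact h3
    obtain ⟨r1, r2, r3⟩ := Pool.Agent.Q160.TB.conc hc1 hc2 hall
    refine ⟨?_, fun S hS => ?_, fun S => ?_⟩
    · simp only [M_eq]
      exact r1
    · rw [hV] at hS ⊢
      simp only [M_eq]
      exact r2 S hS
    · rw [hV]
      exact r3 S

end Pool.Agent.Results.MP_5893d7_nt.LeadingDigits
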