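import Mathlib
import Pool.Agent.Y719.Mer.Open
import Pool.Agent.H447R2.ML.Spec

set_option autoImplicit false

/-!
# The Fibonacci and Lucas numbers inside the two-parameter families of Lucas sequences

For real `P`, `Q` let `lucasU P Q` and `lucasV P Q` be the two Lucas sequences with parameters
`(P, Q)`, the solutions of `T (n + 2) = P T (n + 1) - Q T n` with initial values `0, 1` and `2, P`.
For `(P, Q) = (1, -1)` they are the Fibonacci and the Lucas numbers.  For a real sequence `s` and a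
prime `p` let `W s p` be the `p`-rough part (the product, with multiplicity, of the prime factors
larger than `p`) of `⌊s p⌋`; for the Fibonacci and the Lucas numbers this is the number with the index
`p` itself, for all primes `p > 5`.

A sequence obeys the law with constant `κ` for a set `S` if the number of primes `p ≤ n` with `W s p`
prime is `κ log n + O((log n) ^ (1/2) (log log n) ^ (5/2))`, if the same holds for the primes in `S` with
`V S n` (the sum of `log p / p` over the primes `p ≤ n` in `S`) in the place of `log n` and the error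
term `O((V K) ^ (1/2) (log (V K)) ^ 2)`, `K = log log n`, in case `V S` is unbounded, and if there are
infinitely many `p` in `S` with `W s p` prime if and only if `V S` is unbounded.

We prove the law with `κ = e ^ γ / log α`, `α` the dominant root of `x ^ 2 - P x + Q`, for both
sequences: for every `Q` and almost every `P`, and for every `P > 0` and almost every `Q`, whenever the
roots are real and `α > 1`.
-/

namespace Pool.Agent.Results.MP_5893d7_nt.LucasParameters

open Filter Topology MeasureTheory Asymptotics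

/-- The Lucas numbers. -/
def L : ℕ → ℕ
  | 0 => 2
  | 1 => 1
  | (n + 2) => L (n + 1) + L n

/-- The Lucas sequence `U_n (P, Q)`. -/
def lucasU (P Q : ℝ) : ℕ → ℝ
  | 0 => 0
  | 1 => 1
  | n + 2 => P * lucasU P Q (n + 1) - Q * lucasU P Q n

/-- The companion Lucas sequence `V_n (P, Q)`. -/
def lucasV (P Q : ℝ) : ℕ → ℝ
  | 0 => 2
  | 1 => P
  | n + 2 => P * lucasV P Q (n + 1) - Q * lucasV P Q n

/-- The product, with multiplicity, of the prime factors of `m` that are larger than `p`. -/
def roughPart (p m : ℕ) : ℕ := (m.primeFactorsList.filter (fun r => p < r)).prod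

/-- The `p`-rough part of the integer part of the term `s p` of a real sequence. -/
noncomputable def W (s : ℕ → ℝ) (p : ℕ) : ℕ := roughPart p ⌊s p⌋₊

open Classical in
/-- The number of primes `p ≤ n` in the set `S` for which `W s p` is prime. -/
noncomputable def M (s : ℕ → ℝ) (S : Set ℕ) (n : ℕ) : ℕ :=
  ((Finset.range (n + 1)).filter (fun p => p.Prime ∧ p ∈ S ∧ (W s p).Prime)).card

open Classical in
/-- The sum of `log p / p` over the primes `p ≤ n` in the set `S`. -/
noncomputable def V (S : Set ℕ) (n : ℕ) : ℝ :=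
  ∑ p ∈ (Finset.range (n + 1)).filter (fun p => p.Prime ∧ p ∈ S), Real.log p / p

/-- The law with constant `κ`, with error term, for all primes and for the primes in `S`. -/
structure Law (s : ℕ → ℝ) (κ : ℝ) (S : Set ℕ) : Prop where
  /-- the number of all primes `p ≤ n` with `W s p` prime -/
  all : (fun n : ℕ => (M s Set.univ n : ℝ) - κ * Real.log n) =O[atTop]
    (fun n : ℕ => Real.sqrt (Real.log n) * (Real.log (Real.log n)) ^ ((5 : ℝ) / 2))
  /-- the number of primes `p ≤ n` in `S` with `W s p` prime -/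
  sets : Tendsto (V S) atTop atTop → (fun n : ℕ => (M s S n : ℝ) - κ * V S n) =O[atTop]
    (fun n : ℕ => Real.sqrt (V S n * Real.log (Real.log n)) *
      (Real.log (V S n * Real.log (Real.log n))) ^ 2)
  /-- there are infinitely many in `S` if and only if the weight of `S` is infinite -/
  dichotomy : {p : ℕ | p.Prime ∧ p ∈ S ∧ (W s p).Prime}.Infinite ↔ Tendsto (V S) atTop atTop

lemma V_eq (S : Set ℕ) : V S = Pool.Agent.TH888.R.VS S := by
  classical
  funext n
  unfold V Pool.Agent.TH888.R.VS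
  rw [Finset.sum_filter]
  refine Finset.sum_congr rfl fun p _ => ?_
  by_cases h : p.Prime ∧ p ∈ S
  · rw [if_pos h, if_pos ⟨h.2, h.1⟩]
    rfl
  · rw [if_neg h, if_neg fun h1 => h ⟨h1.2, h1.1⟩]

lemma M_eq (s : ℕ → ℝ) (S : Set ℕ) (n : ℕ) :
    M s S n = Pool.Agent.TH888.R.cS S (fun p => ⌊s p⌋₊) n := by
  classical
  unfold M Pool.Agent.TH888.R.cS
  rfl

lemma lucas_closed (α β : ℝ) (n : ℕ) :
    lucasU (α + β) (α * β) n * (α - β) = α ^ n - β ^ n := by
  induction n using Nat.twoStepInduction with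
  | zero => simp [lucasU]
  | one => simp [lucasU]
  | more n h1 h2 =>
    rw [lucasU]
    calc ((α + β) * lucasU (α + β) (α * β) (n + 1) - α * β * lucasU (α + β) (α * β) n) * (α - β)
        = (α + β) * (lucasU (α + β) (α * β) (n + 1) * (α - β)) -
            α * β * (lucasU (α + β) (α * β) n * (α - β)) := by ring
      _ = _ := by rw [h1, h2]; ring

lemma companion_closed (α β : ℝ) (n : ℕ) :
    lucasV (α + β) (α * β) n = α ^ n + β ^ n := by
  induction n using Nat.twoStepInduction with
  | zero => norm_num [lucasV]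
  | one => simp [lucasV]
  | more n h1 h2 =>
    rw [lucasV, h1, h2]
    ring

lemma fib_eq (n : ℕ) : Pool.Agent.H447R2.ML.U 1 n = Nat.fib n := by
  induction n using Nat.twoStepInduction with
  | zero => rfl
  | one => rfl
  | more n h1 h2 =>
    rw [Pool.Agent.H447R2.ML.U_add_two, h1, h2, Nat.fib_add_two]
    ring

lemma luc_eq (n : ℕ) : Pool.Agent.H447R2.ML.V 1 n = L n := by
  induction n using Nat.twoStepInduction with
  | zero => rfl
  | one => rfl
  | more n h1 h2 =>
    show _ = L (n + 1) + L n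
    rw [Pool.Agent.H447R2.ML.V_add_two, h1, h2]
    ring

lemma U_fib (n : ℕ) : lucasU 1 (-1) n = Nat.fib n := by
  induction n using Nat.twoStepInduction with
  | zero => simp [lucasU]
  | one => simp [lucasU]
  | more n h1 h2 =>
    rw [lucasU, h1, h2, Nat.fib_add_two]
    push_cast
    ring

lemma V_luc (n : ℕ) : lucasV 1 (-1) n = L n := by
  induction n using Nat.twoStepInduction with
  | zero => norm_num [lucasV, L]
  | one => norm_num [lucasV, L]
  | more n h1 h2 =>
    rw [lucasV, h1, h2]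
    show _ = ((L (n + 1) + L n : ℕ) : ℝ)
    push_cast
    ring

/-- The Fibonacci numbers. -/
lemma W_fib {p : ℕ} (hp : p.Prime) (h5 : 5 < p) : W (lucasU 1 (-1)) p = Nat.fib p := by
  have hd : ¬ p ∣ 1 ^ 2 + 4 := by
    intro h
    have := Nat.le_of_dvd (by norm_num) h
    omega
  have h := Pool.Agent.H447R2.ML.rough_U 1 one_pos hp (by omega) hd
    (x := lucasU 1 (-1) p) (by rw [U_fib, fib_eq])
  rw [fib_eq] at h
  exact h

/-- The Lucas numbers. -/
lemma W_luc {p : ℕ} (hp : p.Prime) (h5 : 5 < p) : W (lucasV 1 (-1)) p = L p := by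
  have hd : ¬ p ∣ 1 := fun h => hp.one_lt.ne' (Nat.dvd_one.1 h)
  have h : Pool.Agent.H305R2.roughPart p ⌊lucasV 1 (-1) p⌋₊ = L p := by
    rw [V_luc, Nat.floor_natCast]
    refine Pool.Agent.H447R2.ML.roughPart_eq_self ?_ fun q hq h => ?_
    · rw [← luc_eq]
      exact (Pool.Agent.H447R2.ML.V_pos 1 p one_pos).ne'
    · rw [← luc_eq] at h
      exact Pool.Agent.H447R2.ML.lt_of_dvd_V 1 hp (by omega) hd hq
        (fun h' => hq.one_lt.ne' (Nat.dvd_one.1 h')) h
  exact h

/-- the law from the library statement -/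
lemma law_of {s : ℕ → ℝ} {κ : ℝ} {S : Set ℕ}
    (h1 : Pool.Agent.TH888.R.Pt (fun p => ⌊s p⌋₊) κ Set.univ)
    (h2 : Pool.Agent.TH888.R.Pt (fun p => ⌊s p⌋₊) κ S) : Law s κ S := by
  refine ⟨?_, fun hS => ?_, ?_⟩
  · obtain ⟨B, hB, h⟩ := h1.law Pool.Agent.TH888.R.VS_univ_tendsto
    simp only [M_eq]
    exact Pool.Agent.TH888.R.bigO_all hB h
  · rw [V_eq] at hS ⊢
    obtain ⟨B, hB, h⟩ := h2.law hS
    simp only [M_eq]
    exact Pool.Agent.TH888.R.bigO_set hB hS h
  · rw [V_eq]
    constructor
    · intro hi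
      by_contra hn
      exact hi (h2.fin hn)
    · exact h2.inf

lemma law_open {U : Set ℝ} (hU : IsOpen U) (hU1 : ∀ x ∈ U, 1 < x) {A B c : ℝ → ℝ}
    (hA : ContDiffOn ℝ 2 A U) (hB : ContDiffOn ℝ 2 B U) (hc : ContDiffOn ℝ 2 c U)
    (hpos : ∀ x ∈ U, 0 < A x) (hcx : ∀ x ∈ U, |c x| < x) (S : Set ℕ) :
    ∀ᵐ x : ℝ, x ∈ U → Law (fun p => A x * x ^ p - B x * c x ^ p)
      (Real.exp Real.eulerMascheroniConstant / Real.log x) S := by
  filter_upwards [Pool.Agent.Y719.Mer.pt_open hU hU1 hA hB hc hpos hcx Set.univ,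
    Pool.Agent.Y719.Mer.pt_open hU hU1 hA hB hc hpos hcx S] with x h1 h2 hx
  exact law_of (h1 hx) (h2 hx)

/-- both Lucas sequences along a curve of roots `(x, c x)` -/
lemma law_roots {U : Set ℝ} (hU : IsOpen U) (hU1 : ∀ x ∈ U, 1 < x) {c : ℝ → ℝ}
    (hc : ContDiffOn ℝ 2 c U) (hcx : ∀ x ∈ U, |c x| < x) (S : Set ℕ) :
    ∀ᵐ x : ℝ, x ∈ U →
      Law (lucasU (x + c x) (x * c x)) (Real.exp Real.eulerMascheroniConstant / Real.log x) S ∧
      Law (lucasV (x + c x) (x * c x)) (Real.exp Real.eulerMascheroniConstant / Real.log x) S := by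
  have hd : ∀ x ∈ U, 0 < x - c x := fun x hx => by
    have := (abs_lt.1 (hcx x hx)).2
    linarith
  have hA : ContDiffOn ℝ 2 (fun x : ℝ => 1 / (x - c x)) U :=
    contDiffOn_const.div (contDiffOn_id.sub hc) fun x hx => (hd x hx).ne'
  have h1 := law_open hU hU1 hA hA hc (fun x hx => one_div_pos.2 (hd x hx)) hcx S
  have h2 := law_open hU hU1 (A := fun _ => 1) (B := fun _ => -1) contDiffOn_const contDiffOn_const
    hc (fun x _ => one_pos) hcx S
  filter_upwards [h1, h2] with x g1 g2 hx
  refine ⟨?_, ?_⟩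
  · have g := g1 hx
    have e : (fun p : ℕ => 1 / (x - c x) * x ^ p - 1 / (x - c x) * c x ^ p) =
        lucasU (x + c x) (x * c x) := by
      funext n
      rw [← mul_sub, ← lucas_closed x (c x) n, mul_comm (lucasU _ _ n), ← mul_assoc,
        one_div_mul_cancel (hd x hx).ne', one_mul]
    rw [e] at g
    exact g
  · have g := g2 hx
    have e : (fun p : ℕ => 1 * x ^ p - -1 * c x ^ p) = lucasV (x + c x) (x * c x) := by
      funext n
      rw [companion_closed]
      ring
    rw [e] at g
    exact g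

lemma law_P (Q : ℝ) (S : Set ℕ) :
    ∀ᵐ P : ℝ, ∀ α : ℝ, max 1 (Real.sqrt |Q|) < α → α + Q / α = P →
      Law (lucasU P Q) (Real.exp Real.eulerMascheroniConstant / Real.log α) S ∧
      Law (lucasV P Q) (Real.exp Real.eulerMascheroniConstant / Real.log α) S := by
  set U : Set ℝ := Set.Ioi (max 1 (Real.sqrt |Q|)) with hUd
  have hU1 : ∀ x ∈ U, 1 < x := fun x hx => (le_max_left _ _).trans_lt hx
  have hU2 : ∀ x ∈ U, |Q| < x ^ 2 := fun x hx =>
    (Real.sqrt_lt' (by linarith [hU1 x hx])).1 ((le_max_right _ _).trans_lt hx)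
  have hU3 : ∀ x ∈ U, |Q / x| < x := fun x hx => by
    have h1 : 0 < x := by linarith [hU1 x hx]
    rw [abs_div, abs_of_pos h1, div_lt_iff₀ h1, ← sq]
    exact hU2 x hx
  have hne : ∀ x ∈ U, x ≠ 0 := fun x hx => by
    have h1 : 0 < x := by linarith [hU1 x hx]
    exact h1.ne'
  have hc : ContDiffOn ℝ 2 (fun x : ℝ => Q / x) U := contDiffOn_const.div contDiffOn_id hne
  have h := law_roots isOpen_Ioi hU1 hc hU3 S
  have hd : DifferentiableOn ℝ (fun x : ℝ => x + Q / x) U :=
    (contDiffOn_id.add hc).differentiableOn (by norm_num)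
  filter_upwards [Pool.Agent.Y719.Mer.ae_image hd h] with P hP α hα hαP
  have h2 := hP α hα hαP
  have e1 : α * (Q / α) = Q := by field_simp [hne α hα]
  rw [e1, hαP] at h2
  exact h2

lemma law_Q {P : ℝ} (hP0 : 0 < P) (S : Set ℕ) :
    ∀ᵐ Q : ℝ, ∀ α : ℝ, max 1 (P / 2) < α → α * (P - α) = Q →
      Law (lucasU P Q) (Real.exp Real.eulerMascheroniConstant / Real.log α) S ∧
      Law (lucasV P Q) (Real.exp Real.eulerMascheroniConstant / Real.log α) S := by
  set U : Set ℝ := Set.Ioi (max 1 (P / 2)) with hUd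
  have hU1 : ∀ x ∈ U, 1 < x := fun x hx => (le_max_left _ _).trans_lt hx
  have hU2 : ∀ x ∈ U, P / 2 < x := fun x hx => (le_max_right _ _).trans_lt hx
  have hU3 : ∀ x ∈ U, |P - x| < x := fun x hx => by
    rw [abs_lt]
    constructor <;> linarith [hU2 x hx]
  have hc : ContDiffOn ℝ 2 (fun x : ℝ => P - x) U := contDiffOn_const.sub contDiffOn_id
  have h := law_roots isOpen_Ioi hU1 hc hU3 S
  have hd : DifferentiableOn ℝ (fun x : ℝ => x * (P - x)) U :=
    (contDiffOn_id.mul hc).differentiableOn (by norm_num)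
  filter_upwards [Pool.Agent.Y719.Mer.ae_image hd h] with Q hQ α hα hαQ
  have h2 := hQ α hα hαQ
  have e1 : α + (P - α) = P := by ring
  rw [e1, hαQ] at h2
  exact h2

/-- The Fibonacci and the Lucas numbers are the Lucas sequences with parameters `(1, -1)`.  Both Lucas
sequences obey the law for every `Q` and almost every `P`, and for every `P > 0` and almost every `Q`;
`α` is the dominant root of `x ^ 2 - P x + Q`. -/
theorem result :
    (∀ n : ℕ, lucasU 1 (-1) n = Nat.fib n ∧ lucasV 1 (-1) n = L n) ∧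
    (∀ p : ℕ, p.Prime → 5 < p → W (lucasU 1 (-1)) p = Nat.fib p ∧ W (lucasV 1 (-1)) p = L p) ∧
    (∀ (Q : ℝ) (S : Set ℕ), ∀ᵐ P : ℝ, ∀ α : ℝ, max 1 (Real.sqrt |Q|) < α → α + Q / α = P →
      Law (lucasU P Q) (Real.exp Real.eulerMascheroniConstant / Real.log α) S ∧
      Law (lucasV P Q) (Real.exp Real.eulerMascheroniConstant / Real.log α) S) ∧
    (∀ (P : ℝ) (S : Set ℕ), 0 < P → ∀ᵐ Q : ℝ, ∀ α : ℝ, max 1 (P / 2) < α → α * (P - α) = Q →
      Law (lucasU P Q) (Real.exp Real.eulerMascheroniConstant / Real.log α) S ∧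
      Law (lucasV P Q) (Real.exp Real.eulerMascheroniConstant / Real.log α) S) :=
  ⟨fun n => ⟨U_fib n, V_luc n⟩, fun p hp h5 => ⟨W_fib hp h5, W_luc hp h5⟩, law_P,
    fun _ S hP => law_Q hP S⟩

end Pool.Agent.Results.MP_5893d7_nt.LucasParameters
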