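import Pool.Agent.Q217.SG.GoldenMain

/-!
# Euclid's lemma for the Fibonacci and Lucas numbers and sparse integers

A prime `P` has the property: if `P` divides `x y` then it divides `x` or `y`.  We show that the
Fibonacci numbers `U_n` with odd `n` and the Lucas numbers `V_n` have this property of primes for
integers with few Fibonacci digits, if the odd prime factors of the index `n` are large; in
particular for all prime indices `n` (necessary for the primality of `U_n` and `V_n` apart from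
`n = 4` and from powers of `2`).

Let `x`, `y`, `q` be sums of `k₁`, `k₂`, `l` terms `a U_α + b U_(α + 1)`, with sums `S₁`, `S₂`, `S₃`
of the `|a| + 2 |b|`, and `K = k₁ + k₂ + l`. Suppose that `n` has no odd prime factor `≤ 4 ^ K` and
that `3 (2 K + 1) 4 ^ K ⌊log_2 (4 S₁ S₂ + 9 S₃)⌋ < 2 n`.

(1) If `n` is odd and `x y = q U_n` then `U_n ∣ x` or `U_n ∣ y`.
(2) If `x y = q V_n` then `V_n ∣ x` or `V_n ∣ y`.
(3) If `p` is a prime, `U_p = x y` or `V_p = x y` where `x`, `y` are sums of `k₁`, `k₂` terms `± U_α`,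
`k = k₁ + k₂`, and `3 (k + 2) ^ 2 4 ^ (k + 1) ≤ p`, then `x = ± 1` or `y = ± 1`.
-/

set_option autoImplicit false

namespace Pool.Agent.Results.MP_5893d7_nt.SparseEuclid

open Finset Q217.SG Q217.SG.Golden

/-- The Lucas numbers. -/
def lucas : ℕ → ℕ
  | 0 => 2
  | 1 => 1
  | n + 2 => lucas (n + 1) + lucas n

/-- The value `∑ (a_i U_(α_i) + b_i U_(α_i + 1))`, `U` the Fibonacci numbers. -/
def value {k : ℕ} (a b : Fin k → ℤ) (α : Fin k → ℕ) : ℤ :=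
  ∑ i, (a i * Nat.fib (α i) + b i * Nat.fib (α i + 1))

/-- The weight `∑ (|a_i| + 2 |b_i|)`. -/
def weight {k : ℕ} (a b : Fin k → ℤ) : ℕ := ∑ i, ((a i).natAbs + 2 * (b i).natAbs)

/-- `x` is a sum of `k` terms `± U_α`. -/
def Sparse (k : ℕ) (x : ℤ) : Prop :=
  ∃ (a : Fin k → ℤ) (α : Fin k → ℕ), (∀ i, a i = 1 ∨ a i = -1) ∧
    x = ∑ i, a i * Nat.fib (α i)

/-! ### The golden integers -/

/-- the square root of `5` -/
def δ : ZP := ⟨-1, 2⟩

theorem δ_sq : δ * δ = 5 := by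
  ext
  · change (-1 : ℤ) * (-1) + 1 * 2 * 2 = 5
    norm_num
  · change (-1 : ℤ) * 2 + 2 * (-1) + 1 * 2 * 2 = 0
    norm_num

theorem δ_ne_zero : δ ≠ 0 := by
  intro h
  have := congrArg QuadraticAlgebra.im h
  simp [δ] at this

theorem star_δ : star δ = -δ := by
  ext <;> simp [δ]

theorem δ_eq : δ = γ - γ' := by
  ext <;> simp [δ, γ, γ']

theorem γ_sq : γ ^ 2 = γ + 1 := by
  rw [sq]
  ext <;> simp [γ, QuadraticAlgebra.re_one, QuadraticAlgebra.im_one]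

theorem γ'_sq : γ' ^ 2 = γ' + 1 := by
  rw [sq]
  ext <;> simp [γ', QuadraticAlgebra.re_one, QuadraticAlgebra.im_one]

theorem γ_mul : γ * γ' = -1 := by
  ext <;> simp [γ, γ', QuadraticAlgebra.re_one, QuadraticAlgebra.im_one]

theorem γ_add : γ + γ' = 1 := by
  ext <;> simp [γ, γ', QuadraticAlgebra.re_one, QuadraticAlgebra.im_one]

theorem star_γ : star γ = γ' := by
  ext <;> simp [γ, γ']

theorem δ_fib (n : ℕ) : δ * (Nat.fib n : ZP) = γ ^ n - γ' ^ n := by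
  induction n using Nat.twoStepInduction with
  | zero => simp
  | one => simp [δ_eq]
  | more n h1 h2 =>
    rw [Nat.fib_add_two]
    push_cast
    have e1 : γ ^ (n + 2) = γ ^ (n + 1) + γ ^ n := by rw [pow_add, γ_sq]; ring
    have e2 : γ' ^ (n + 2) = γ' ^ (n + 1) + γ' ^ n := by rw [pow_add, γ'_sq]; ring
    rw [e1, e2, mul_add, h1, h2]
    ring

theorem lucas_eq (n : ℕ) : (lucas n : ZP) = γ ^ n + γ' ^ n := by
  induction n using Nat.twoStepInduction with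
  | zero => simp [lucas]; norm_num
  | one => simp [lucas, γ_add]
  | more n h1 h2 =>
    rw [lucas]
    push_cast
    have e1 : γ ^ (n + 2) = γ ^ (n + 1) + γ ^ n := by rw [pow_add, γ_sq]; ring
    have e2 : γ' ^ (n + 2) = γ' ^ (n + 1) + γ' ^ n := by rw [pow_add, γ'_sq]; ring
    rw [e1, e2, h1, h2]
    ring

theorem γ_mul_lucas (n : ℕ) : γ ^ n * (lucas n : ZP) = γ ^ (2 * n) + (-1) ^ n := by
  rw [lucas_eq, ← γ_mul, mul_pow, mul_comm 2 n, pow_mul]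
  ring

theorem γ_mul_fib (n : ℕ) : γ ^ n * (δ * (Nat.fib n : ZP)) = γ ^ (2 * n) - (-1) ^ n := by
  rw [δ_fib, ← γ_mul, mul_pow, mul_comm 2 n, pow_mul]
  ring

theorem G_neg (m : ℕ) : (-1) ^ m * G (-(m : ℤ)) = γ' ^ m := by
  have h1 : G (-(m : ℤ)) * γ ^ m = 1 := by
    rw [← G_natCast, ← G_add, neg_add_cancel, G_zero]
  have h2 : γ' ^ m * γ ^ m = (-1) ^ m := by rw [← mul_pow, mul_comm, γ_mul]
  calc (-1) ^ m * G (-(m : ℤ)) = (γ' ^ m * γ ^ m) * G (-(m : ℤ)) := by rw [h2]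
    _ = γ' ^ m * (G (-(m : ℤ)) * γ ^ m) := by ring
    _ = γ' ^ m := by rw [h1, mul_one]

/-- the coefficients of `δ x` -/
def coef {k : ℕ} (a b : Fin k → ℤ) (α : Fin k → ℕ) : Fin (k + k) → ZP :=
  Fin.addCases (fun i => (⟨a i, b i⟩ : ZP)) (fun i => -((-1) ^ α i * star (⟨a i, b i⟩ : ZP)))

/-- the exponents of `γ ^ s δ x` -/
def exps {k : ℕ} (α : Fin k → ℕ) (s : ℤ) : Fin (k + k) → ℤ :=
  Fin.addCases (fun i => s + α i) (fun i => s + -(α i : ℤ))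

theorem sum_list {k : ℕ} (a b : Fin k → ℤ) (α : Fin k → ℕ) (s : ℤ) :
    ∑ i, coef a b α i * G (exps α s i) = G s * (δ * (value a b α : ZP)) := by
  rw [Fin.sum_univ_add]
  simp only [coef, exps, Fin.addCases_left, Fin.addCases_right]
  rw [value]
  push_cast
  rw [← Finset.sum_add_distrib, Finset.mul_sum, Finset.mul_sum]
  apply Finset.sum_congr rfl
  intro i _
  have e1 : (⟨a i, b i⟩ : ZP) = (a i : ZP) + (b i : ZP) * γ := by
    ext <;> simp [γ]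
  have e2 : star (⟨a i, b i⟩ : ZP) = (a i : ZP) + (b i : ZP) * γ' := by
    ext <;> simp [γ']
  rw [e2, e1, G_add, G_add, G_natCast]
  have h1 := δ_fib (α i)
  have h2 := δ_fib (α i + 1)
  have h3 := G_neg (α i)
  have h4 : δ * ((a i : ZP) * (Nat.fib (α i) : ZP) + (b i : ZP) * (Nat.fib (α i + 1) : ZP)) =
      (a i : ZP) * (γ ^ α i - γ' ^ α i) + (b i : ZP) * (γ ^ (α i + 1) - γ' ^ (α i + 1)) := by
    rw [← h1, ← h2]; ring
  rw [h4]
  rw [pow_succ, pow_succ]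
  linear_combination (-(G s * ((a i : ZP) + (b i : ZP) * γ'))) * h3

theorem sz_coef {k : ℕ} (a b : Fin k → ℤ) (α : Fin k → ℕ) :
    ∑ i, sz (coef a b α i) ≤ 2 * (weight a b : ℝ) := by
  rw [Fin.sum_univ_add]
  simp only [coef, Fin.addCases_left, Fin.addCases_right]
  have h1 : ∀ (m : ℕ) (z : ZP), sz (-((-1) ^ m * z)) = sz z := by
    intro m z
    rcases neg_one_pow_eq_or ZP m with h | h <;> rw [h]
    · rw [one_mul, sz_neg]
    · rw [neg_one_mul, neg_neg]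
  simp only [h1, sz_star]
  have h2 : ∑ i, sz (⟨a i, b i⟩ : ZP) ≤ (weight a b : ℝ) := by
    rw [weight]
    push_cast
    apply Finset.sum_le_sum
    intro i _
    have := sz_le (⟨a i, b i⟩ : ZP)
    simpa using this
  linarith

theorem sz_δ_mul (z : ZP) : sz (δ * z) ≤ 9 / 4 * sz z := by
  refine (sz_mul _ _).trans (mul_le_mul_of_nonneg_right ?_ (sz_nonneg _))
  have h1 : s₁ δ * s₁ δ = 5 := by rw [← map_mul, δ_sq, map_ofNat]
  have h2 : s₂ δ * s₂ δ = 5 := by rw [← map_mul, δ_sq, map_ofNat]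
  apply max_le
  · rw [abs_le]; constructor <;> nlinarith
  · rw [abs_le]; constructor <;> nlinarith

theorem golden_bound {N : ℕ} {x : ℝ} (hx0 : 0 ≤ x) (hx : x ≤ N) :
    x ^ 2 < 4 * Real.goldenRatio ^ (3 * Nat.log 2 N + 1) := by
  have h1 := Nat.lt_pow_succ_log_self (b := 2) (by norm_num) N
  have h2 : (N : ℝ) < 2 ^ (Nat.log 2 N + 1) := by exact_mod_cast h1
  have hφ := Real.one_lt_goldenRatio
  have hφ0 := Real.goldenRatio_pos
  have h3 : (4 : ℝ) ≤ Real.goldenRatio ^ 3 := by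
    have e : Real.goldenRatio ^ 3 = 2 * Real.goldenRatio + 1 := by
      have := Real.goldenRatio_sq
      calc Real.goldenRatio ^ 3 = Real.goldenRatio ^ 2 * Real.goldenRatio := by ring
        _ = (Real.goldenRatio + 1) * Real.goldenRatio := by rw [this]
        _ = Real.goldenRatio ^ 2 + Real.goldenRatio := by ring
        _ = _ := by rw [this]; ring
    rw [e]
    have h5 : (3 / 2 : ℝ) ≤ Real.goldenRatio := by
      by_contra hcon
      push Not at hcon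
      have := Real.goldenRatio_sq
      nlinarith
    linarith
  calc x ^ 2 ≤ (N : ℝ) ^ 2 := pow_le_pow_left₀ hx0 hx 2
    _ < (2 ^ (Nat.log 2 N + 1)) ^ 2 := pow_lt_pow_left₀ h2 (Nat.cast_nonneg _) (by norm_num)
    _ = 4 * 4 ^ (Nat.log 2 N) := by
        rw [← pow_mul, mul_comm, pow_mul]
        norm_num
        rw [pow_succ]; ring
    _ ≤ 4 * (Real.goldenRatio ^ 3) ^ (Nat.log 2 N) := by
        have := pow_le_pow_left₀ (by norm_num : (0 : ℝ) ≤ 4) h3 (Nat.log 2 N)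
        linarith
    _ ≤ 4 * Real.goldenRatio ^ (3 * Nat.log 2 N + 1) := by
        rw [← pow_mul]
        have := pow_le_pow_right₀ hφ.le (Nat.le_add_right (3 * Nat.log 2 N) 1)
        linarith

theorem int_dvd {m x : ℤ} (h : (m : ZP) ∣ (x : ZP)) : m ∣ x := by
  obtain ⟨w, hw⟩ := h
  have := congrArg QuadraticAlgebra.re hw
  refine ⟨w.re, ?_⟩
  simpa using this

theorem G_cancel {s : ℤ} {A z : ZP} (h : A ∣ G s * z) : A ∣ z := by
  have h1 : z = G (-s) * (G s * z) := by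
    rw [← mul_assoc, ← G_add, neg_add_cancel, G_zero, one_mul]
  rw [h1]
  exact h.mul_left _

/-! ### Lucas numbers modulo small primes -/

theorem lucas_mod_five (n : ℕ) : (lucas n % 5, lucas (n + 1) % 5) = (2, 1) ∨
    (lucas n % 5, lucas (n + 1) % 5) = (1, 3) ∨ (lucas n % 5, lucas (n + 1) % 5) = (3, 4) ∨
    (lucas n % 5, lucas (n + 1) % 5) = (4, 2) := by
  induction n with
  | zero => left; rfl
  | succ n ih =>
    have h : lucas (n + 1 + 1) = lucas (n + 1) + lucas n := rfl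
    simp only [Prod.mk.injEq] at ih ⊢
    omega

theorem coprime_five (n : ℕ) : IsCoprime (lucas n : ℤ) 5 := by
  rw [Int.isCoprime_iff_gcd_eq_one]
  have h1 : Nat.Coprime (lucas n) 5 := by
    rw [Nat.coprime_comm, Nat.Prime.coprime_iff_not_dvd (by norm_num)]
    intro h
    have := lucas_mod_five n
    simp only [Prod.mk.injEq] at this
    omega
  exact_mod_cast h1

theorem lucas_mod_two (n : ℕ) : (n % 3 = 0 ∧ lucas n % 2 = 0 ∧ lucas (n + 1) % 2 = 1) ∨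
    (n % 3 = 1 ∧ lucas n % 2 = 1 ∧ lucas (n + 1) % 2 = 1) ∨
    (n % 3 = 2 ∧ lucas n % 2 = 1 ∧ lucas (n + 1) % 2 = 0) := by
  induction n with
  | zero => left; decide
  | succ n ih =>
    have h : lucas (n + 1 + 1) = lucas (n + 1) + lucas n := rfl
    omega

theorem lucas_odd {n : ℕ} (h : ¬ 3 ∣ n) : ∃ j : ℤ, (lucas n : ℤ) = 2 * j + 1 := by
  have := lucas_mod_two n
  exact ⟨lucas n / 2, by omega⟩

/-! ### The main theorem -/

/-- the bound for the sizes -/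
theorem size_bound {k₁ k₂ l : ℕ} (a₁ b₁ : Fin k₁ → ℤ) (α₁ : Fin k₁ → ℕ) (a₂ b₂ : Fin k₂ → ℤ)
    (α₂ : Fin k₂ → ℕ) (a₃ b₃ : Fin l → ℤ) (d : Fin (l + l) → ZP)
    (hd : ∑ j, sz (d j) ≤ 9 / 2 * (weight a₃ b₃ : ℝ)) :
    ((∑ i, sz (coef a₁ b₁ α₁ i)) * (∑ i, sz (coef a₂ b₂ α₂ i)) + 2 * ∑ j, sz (d j)) ^ 2 <
      4 * Real.goldenRatio ^
        (3 * Nat.log 2 (4 * weight a₁ b₁ * weight a₂ b₂ + 9 * weight a₃ b₃) + 1) := by
  have n1 : 0 ≤ ∑ i, sz (coef a₁ b₁ α₁ i) := Finset.sum_nonneg (fun i _ => sz_nonneg _)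
  have n2 : 0 ≤ ∑ i, sz (coef a₂ b₂ α₂ i) := Finset.sum_nonneg (fun i _ => sz_nonneg _)
  have n3 : 0 ≤ ∑ j, sz (d j) := Finset.sum_nonneg (fun i _ => sz_nonneg _)
  apply golden_bound
  · positivity
  · have h1 := mul_le_mul (sz_coef a₁ b₁ α₁) (sz_coef a₂ b₂ α₂) n2 (by positivity)
    push_cast
    nlinarith

section Main

variable {n k₁ k₂ l : ℕ} (a₁ b₁ : Fin k₁ → ℤ) (α₁ : Fin k₁ → ℕ) (a₂ b₂ : Fin k₂ → ℤ)
  (α₂ : Fin k₂ → ℕ) (a₃ b₃ : Fin l → ℤ) (α₃ : Fin l → ℕ)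

/-- the numbers of terms -/
def kk (k₁ k₂ : ℕ) : Fin 2 → ℕ
  | 0 => k₁ + k₁
  | 1 => k₂ + k₂

/-- the coefficients -/
def cc : ∀ t, Fin (kk k₁ k₂ t) → ZP
  | 0 => coef a₁ b₁ α₁
  | 1 => coef a₂ b₂ α₂

/-- the exponents -/
def ee (n : ℕ) : ∀ t, Fin (kk k₁ k₂ t) → ℤ
  | 0 => exps α₁ n
  | 1 => exps α₂ 0

theorem sum_kk : ∑ t, kk k₁ k₂ t + (l + l) = 2 * (k₁ + k₂ + l) := by
  rw [Fin.sum_univ_two]
  simp only [kk]
  ring

theorem prod_cc : ∏ t, ∑ i, cc a₁ b₁ α₁ a₂ b₂ α₂ t i * G (ee α₁ α₂ n t i) =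
    γ ^ n * (δ * (value a₁ b₁ α₁ : ZP)) * (δ * (value a₂ b₂ α₂ : ZP)) := by
  rw [Fin.prod_univ_two]
  have h1 := sum_list a₁ b₁ α₁ n
  have h2 := sum_list a₂ b₂ α₂ 0
  rw [G_zero, one_mul] at h2
  rw [G_natCast] at h1
  exact congrArg₂ (· * ·) h1 h2

theorem dvd_cc {A : ZP} (h : ∃ t, A ∣ ∑ i, cc a₁ b₁ α₁ a₂ b₂ α₂ t i * G (ee α₁ α₂ n t i)) :
    A ∣ δ * (value a₁ b₁ α₁ : ZP) ∨ A ∣ δ * (value a₂ b₂ α₂ : ZP) := by
  obtain ⟨t, ht⟩ := h
  match t, ht with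
  | 0, ht =>
    left
    have h1 : A ∣ G n * (δ * (value a₁ b₁ α₁ : ZP)) := by
      rw [← sum_list a₁ b₁ α₁ n]; exact ht
    exact G_cancel h1
  | 1, ht =>
    right
    have h1 : A ∣ G 0 * (δ * (value a₂ b₂ α₂ : ZP)) := by
      rw [← sum_list a₂ b₂ α₂ 0]; exact ht
    exact G_cancel h1

variable {a₁ b₁ α₁ a₂ b₂ α₂ a₃ b₃ α₃}

theorem fib_case (hodd : Odd n)
    (hn : ∀ p : ℕ, p.Prime → p ≠ 2 → p ∣ n → 4 ^ (k₁ + k₂ + l) < p)
    (hbig : 3 * (2 * (k₁ + k₂ + l) + 1) * 4 ^ (k₁ + k₂ + l) *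
      Nat.log 2 (4 * weight a₁ b₁ * weight a₂ b₂ + 9 * weight a₃ b₃) < 2 * n)
    (h : value a₁ b₁ α₁ * value a₂ b₂ α₂ = value a₃ b₃ α₃ * (Nat.fib n : ℤ)) :
    (Nat.fib n : ℤ) ∣ value a₁ b₁ α₁ ∨ (Nat.fib n : ℤ) ∣ value a₂ b₂ α₂ := by
  have hneg : (-1 : ZP) ^ n = -1 := hodd.neg_one_pow
  have hF := γ_mul_fib n
  rw [hneg, sub_neg_eq_add] at hF
  have h' : (value a₁ b₁ α₁ : ZP) * (value a₂ b₂ α₂ : ZP) =
      (value a₃ b₃ α₃ : ZP) * (Nat.fib n : ZP) := by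
    have := congrArg (fun z : ℤ => (z : ZP)) h
    push_cast at this
    exact this
  have key := golden_plus (n := n) (kk k₁ k₂) (cc a₁ b₁ α₁ a₂ b₂ α₂) (ee α₁ α₂ n)
    (coef a₃ b₃ α₃) (exps α₃ 0)
    (by
      rw [prod_cc, sum_list, G_zero, one_mul, ← hF]
      linear_combination γ ^ n * (δ * δ) * h')
    (3 * Nat.log 2 (4 * weight a₁ b₁ * weight a₂ b₂ + 9 * weight a₃ b₃))
    (by
      rw [Fin.prod_univ_two]
      refine size_bound a₁ b₁ α₁ a₂ b₂ α₂ a₃ b₃ (coef a₃ b₃ α₃) ?_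
      have := sz_coef a₃ b₃ α₃
      have h2 : (0 : ℝ) ≤ weight a₃ b₃ := Nat.cast_nonneg _
      linarith)
    (by
      rw [sum_kk, pow_mul]
      refine lt_of_eq_of_lt ?_ hbig
      norm_num
      ring)
    (by
      intro p hp ho hle hd
      rw [sum_kk, pow_mul] at hle
      have := hn p hp (by rintro rfl; exact absurd ho (by decide)) hd
      norm_num at hle
      omega)
  have hfin : ∀ x : ℤ, γ ^ (2 * n) + 1 ∣ δ * (x : ZP) → (Nat.fib n : ℤ) ∣ x := by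
    intro x hx
    apply int_dvd
    rw [← hF] at hx
    have h1 : δ * (Nat.fib n : ZP) ∣ δ * (x : ZP) := (Dvd.intro_left _ rfl).trans hx
    have h2 := (mul_dvd_mul_iff_left δ_ne_zero).1 h1
    exact_mod_cast h2
  rcases dvd_cc a₁ b₁ α₁ a₂ b₂ α₂ key with h1 | h1
  · exact Or.inl (hfin _ h1)
  · exact Or.inr (hfin _ h1)

theorem lucas_fin {x : ℤ} (h : (lucas n : ZP) ∣ δ * (x : ZP)) : (lucas n : ℤ) ∣ x := by
  have h1 : (((lucas n : ℤ)) : ZP) ∣ ((5 * x : ℤ) : ZP) := by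
    have h2 : (lucas n : ZP) ∣ δ * (δ * (x : ZP)) := h.mul_left _
    rw [← mul_assoc, δ_sq] at h2
    push_cast
    exact h2
  exact (coprime_five n).dvd_of_dvd_mul_left (int_dvd h1)

theorem lucas_even_case (heven : Even n)
    (hn : ∀ p : ℕ, p.Prime → p ≠ 2 → p ∣ n → 4 ^ (k₁ + k₂ + l) < p)
    (hbig : 3 * (2 * (k₁ + k₂ + l) + 1) * 4 ^ (k₁ + k₂ + l) *
      Nat.log 2 (4 * weight a₁ b₁ * weight a₂ b₂ + 9 * weight a₃ b₃) < 2 * n)
    (h : value a₁ b₁ α₁ * value a₂ b₂ α₂ = value a₃ b₃ α₃ * (lucas n : ℤ)) :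
    (lucas n : ℤ) ∣ value a₁ b₁ α₁ ∨ (lucas n : ℤ) ∣ value a₂ b₂ α₂ := by
  have hneg : (-1 : ZP) ^ n = 1 := heven.neg_one_pow
  have hF := γ_mul_lucas n
  rw [hneg] at hF
  have h' : (value a₁ b₁ α₁ : ZP) * (value a₂ b₂ α₂ : ZP) =
      (value a₃ b₃ α₃ : ZP) * (lucas n : ZP) := by
    have := congrArg (fun z : ℤ => (z : ZP)) h
    push_cast at this
    exact this
  have key := golden_plus (n := n) (kk k₁ k₂) (cc a₁ b₁ α₁ a₂ b₂ α₂) (ee α₁ α₂ n)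
    (fun j => δ * coef a₃ b₃ α₃ j) (exps α₃ 0)
    (by
      simp only [mul_assoc]
      rw [← Finset.mul_sum, prod_cc, sum_list, G_zero, one_mul, ← hF]
      linear_combination γ ^ n * (δ * δ) * h')
    (3 * Nat.log 2 (4 * weight a₁ b₁ * weight a₂ b₂ + 9 * weight a₃ b₃))
    (by
      rw [Fin.prod_univ_two]
      refine size_bound a₁ b₁ α₁ a₂ b₂ α₂ a₃ b₃ _ ?_
      have h1 := sz_coef a₃ b₃ α₃
      have h2 : ∑ j, sz (δ * coef a₃ b₃ α₃ j) ≤ 9 / 4 * ∑ j, sz (coef a₃ b₃ α₃ j) := by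
        rw [Finset.mul_sum]
        exact Finset.sum_le_sum (fun j _ => sz_δ_mul _)
      linarith)
    (by
      rw [sum_kk, pow_mul]
      refine lt_of_eq_of_lt ?_ hbig
      norm_num
      ring)
    (by
      intro p hp ho hle hd
      rw [sum_kk, pow_mul] at hle
      have := hn p hp (by rintro rfl; exact absurd ho (by decide)) hd
      norm_num at hle
      omega)
  have hfin : ∀ x : ℤ, γ ^ (2 * n) + 1 ∣ δ * (x : ZP) → (lucas n : ℤ) ∣ x := by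
    intro x hx
    apply lucas_fin
    rw [← hF] at hx
    exact (Dvd.intro_left _ rfl).trans hx
  rcases dvd_cc a₁ b₁ α₁ a₂ b₂ α₂ key with h1 | h1
  · exact Or.inl (hfin _ h1)
  · exact Or.inr (hfin _ h1)

theorem lucas_odd_case (hodd : Odd n)
    (hn : ∀ p : ℕ, p.Prime → p ≠ 2 → p ∣ n → 4 ^ (k₁ + k₂ + l) < p)
    (hbig : 3 * (2 * (k₁ + k₂ + l) + 1) * 4 ^ (k₁ + k₂ + l) *
      Nat.log 2 (4 * weight a₁ b₁ * weight a₂ b₂ + 9 * weight a₃ b₃) < 2 * n)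
    (h : value a₁ b₁ α₁ * value a₂ b₂ α₂ = value a₃ b₃ α₃ * (lucas n : ℤ)) :
    (lucas n : ℤ) ∣ value a₁ b₁ α₁ ∨ (lucas n : ℤ) ∣ value a₂ b₂ α₂ := by
  by_cases hk : k₁ = 0
  · left
    subst hk
    simp [value]
  have h3 : ¬ 3 ∣ n := by
    intro h3
    have h4 := hn 3 (by norm_num) (by norm_num) h3
    have h5 : 4 ^ 1 ≤ 4 ^ (k₁ + k₂ + l) := Nat.pow_le_pow_right (by norm_num) (by omega)
    omega
  obtain ⟨j, hj⟩ := lucas_odd h3
  have hneg : (-1 : ZP) ^ n = -1 := hodd.neg_one_pow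
  have hF := γ_mul_lucas n
  rw [hneg] at hF
  have h' : (value a₁ b₁ α₁ : ZP) * (value a₂ b₂ α₂ : ZP) =
      (value a₃ b₃ α₃ : ZP) * (lucas n : ZP) := by
    have := congrArg (fun z : ℤ => (z : ZP)) h
    push_cast at this
    exact this
  have key := golden_minus (n := n) hodd (kk k₁ k₂) (cc a₁ b₁ α₁ a₂ b₂ α₂) (ee α₁ α₂ n)
    (fun j => δ * coef a₃ b₃ α₃ j) (exps α₃ 0)
    (by
      simp only [mul_assoc]
      rw [← Finset.mul_sum, prod_cc, sum_list, G_zero, one_mul, ← hF]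
      linear_combination γ ^ n * (δ * δ) * h')
    (3 * Nat.log 2 (4 * weight a₁ b₁ * weight a₂ b₂ + 9 * weight a₃ b₃))
    (by
      rw [Fin.prod_univ_two]
      refine size_bound a₁ b₁ α₁ a₂ b₂ α₂ a₃ b₃ _ ?_
      have h1 := sz_coef a₃ b₃ α₃
      have h2 : ∑ j, sz (δ * coef a₃ b₃ α₃ j) ≤ 9 / 4 * ∑ j, sz (coef a₃ b₃ α₃ j) := by
        rw [Finset.mul_sum]
        exact Finset.sum_le_sum (fun j _ => sz_δ_mul _)
      linarith)
    (by
      rw [sum_kk, pow_mul]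
      refine lt_of_eq_of_lt ?_ hbig
      norm_num
      ring)
    (by
      intro p hp ho hle hd
      rw [sum_kk, pow_mul] at hle
      have := hn p hp (by rintro rfl; exact absurd ho (by decide)) hd
      norm_num at hle
      omega)
  -- the inverse of `γ ^ n`
  have hinv : G (-(n : ℤ)) * γ ^ n = 1 := by
    rw [← G_natCast, ← G_add, neg_add_cancel, G_zero]
  have hγ' : γ' ^ n = -G (-(n : ℤ)) := by
    rw [← G_neg, hneg, neg_one_mul]
  have hL : (lucas n : ZP) = 2 * (j : ZP) + 1 := by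
    have := congrArg (fun z : ℤ => (z : ZP)) hj
    push_cast at this
    exact this
  have hfin : ∀ x : ℤ, 1 - γ ^ n ∣ δ * (x : ZP) → (lucas n : ℤ) ∣ x := by
    intro x hx
    apply lucas_fin
    -- the conjugate divisibility
    have h1 : 1 + γ ^ n ∣ δ * (x : ZP) := by
      obtain ⟨w, hw⟩ := hx
      have h2 := congrArg star hw
      have hs : star (δ * (x : ZP)) = -(δ * (x : ZP)) := by
        rw [star_mul, star_δ]
        have : star (x : ZP) = (x : ZP) := by ext <;> simp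
        rw [this]
        ring
      have hs2 : star (1 - γ ^ n : ZP) = 1 + G (-(n : ℤ)) := by
        rw [star_sub, star_one, star_pow, star_γ, hγ', sub_neg_eq_add]
      rw [hs, star_mul, hs2] at h2
      refine ⟨-(G (-(n : ℤ)) * star w), ?_⟩
      linear_combination (-1 : ZP) * h2 + star w * hinv
    have hcop : IsCoprime (1 - γ ^ n : ZP) (1 + γ ^ n) := by
      refine ⟨-(G (-(n : ℤ)) * (1 + γ ^ n)) - (j : ZP), -(j : ZP), ?_⟩
      have h2 : (1 - γ ^ n) * (1 + γ ^ n) = -(γ ^ n * (lucas n : ZP)) := by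
        rw [hF, mul_comm 2 n, pow_mul]
        ring
      rw [hL] at h2
      linear_combination (-G (-(n : ℤ))) * h2 + (2 * (j : ZP) + 1) * hinv
    have h2 := hcop.mul_dvd hx h1
    have h4 : (lucas n : ZP) ∣ (1 - γ ^ n) * (1 + γ ^ n) := by
      refine ⟨-γ ^ n, ?_⟩
      have : (lucas n : ZP) * -γ ^ n = -(γ ^ n * (lucas n : ZP)) := by ring
      rw [this, hF, mul_comm 2 n, pow_mul]
      ring
    exact h4.trans h2
  rcases dvd_cc a₁ b₁ α₁ a₂ b₂ α₂ key with h1 | h1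
  · exact Or.inl (hfin _ h1)
  · exact Or.inr (hfin _ h1)

theorem lucas_case
    (hn : ∀ p : ℕ, p.Prime → p ≠ 2 → p ∣ n → 4 ^ (k₁ + k₂ + l) < p)
    (hbig : 3 * (2 * (k₁ + k₂ + l) + 1) * 4 ^ (k₁ + k₂ + l) *
      Nat.log 2 (4 * weight a₁ b₁ * weight a₂ b₂ + 9 * weight a₃ b₃) < 2 * n)
    (h : value a₁ b₁ α₁ * value a₂ b₂ α₂ = value a₃ b₃ α₃ * (lucas n : ℤ)) :
    (lucas n : ℤ) ∣ value a₁ b₁ α₁ ∨ (lucas n : ℤ) ∣ value a₂ b₂ α₂ := by
  rcases Nat.even_or_odd n with he | ho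
  · exact lucas_even_case he hn hbig h
  · exact lucas_odd_case ho hn hbig h

end Main

/-! ### Sparse factorizations -/

theorem sparse_value {k : ℕ} {x : ℤ} (h : Sparse k x) :
    ∃ (a : Fin k → ℤ) (α : Fin k → ℕ), weight a 0 = k ∧ x = value a 0 α := by
  obtain ⟨a, α, ha, hx⟩ := h
  refine ⟨a, α, ?_, ?_⟩
  · have h1 : ∀ i, (a i).natAbs = 1 := by
      intro i
      rcases ha i with h | h <;> rw [h] <;> rfl
    simp [weight, h1]
  · rw [hx, value]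
    simp

theorem log_bound {k₁ k₂ : ℕ} (h : 2 ≤ k₁ + k₂) :
    Nat.log 2 (4 * k₁ * k₂ + 9) ≤ k₁ + k₂ + 1 := by
  have h1 : 4 * k₁ * k₂ ≤ (k₁ + k₂) ^ 2 := by nlinarith [sq_nonneg ((k₁ : ℤ) - k₂)]
  have hpow : ∀ k : ℕ, 2 ≤ k → k ^ 2 + 9 < 2 ^ (k + 2) := by
    intro k hk
    induction k, hk using Nat.le_induction with
    | base => norm_num
    | succ k hk ih =>
      have e : 2 ^ (k + 1 + 2) = 2 * 2 ^ (k + 2) := by ring
      rw [e]
      nlinarith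
  have h2 := hpow (k₁ + k₂) h
  have h3 : Nat.log 2 (4 * k₁ * k₂ + 9) < k₁ + k₂ + 2 := by
    apply Nat.log_lt_of_lt_pow' (by omega)
    omega
  omega

theorem part3 {p k₁ k₂ : ℕ} {N : ℕ} (hp : p.Prime) (hN : N = Nat.fib p ∨ N = lucas p)
    (hbig : 3 * (k₁ + k₂ + 2) ^ 2 * 4 ^ (k₁ + k₂ + 1) ≤ p) {x y : ℤ}
    (hx : Sparse k₁ x) (hy : Sparse k₂ y) (h : x * y = N) :
    (x = 1 ∨ x = -1) ∨ (y = 1 ∨ y = -1) := by
  have hN0 : (N : ℤ) ≠ 0 := by
    have : 0 < N := by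
      rcases hN with h | h <;> rw [h]
      · exact Nat.fib_pos.2 hp.pos
      · have := lucas_mod_five p
        simp only [Prod.mk.injEq] at this
        omega
    omega
  obtain ⟨a₁, α₁, hw₁, hx⟩ := sparse_value hx
  obtain ⟨a₂, α₂, hw₂, hy⟩ := sparse_value hy
  have hk1 : k₁ ≠ 0 := by
    rintro rfl
    apply hN0
    rw [← h, hx]
    simp [value]
  have hk2 : k₂ ≠ 0 := by
    rintro rfl
    apply hN0
    rw [← h, hy]
    simp [value]
  -- the bounds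
  have hbase : 4 ^ (k₁ + k₂ + 1) < p := by
    have h1 : 1 ≤ 4 ^ (k₁ + k₂ + 1) := Nat.one_le_pow _ _ (by norm_num)
    have h2 : 2 ≤ 3 * (k₁ + k₂ + 2) ^ 2 := by nlinarith
    have h3 := Nat.mul_le_mul_right (4 ^ (k₁ + k₂ + 1)) h2
    omega
  have hn : ∀ r : ℕ, r.Prime → r ≠ 2 → r ∣ p → 4 ^ (k₁ + k₂ + 1) < r := by
    intro r hr _ hrp
    rw [(Nat.prime_dvd_prime_iff_eq hr hp).1 hrp]
    exact hbase
  have hw3 : weight (fun _ : Fin 1 => (1 : ℤ)) 0 = 1 := by simp [weight]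
  have hlog := log_bound (k₁ := k₁) (k₂ := k₂) (by omega)
  have hb : 3 * (2 * (k₁ + k₂ + 1) + 1) * 4 ^ (k₁ + k₂ + 1) *
      Nat.log 2 (4 * weight a₁ 0 * weight a₂ 0 + 9 * weight (fun _ : Fin 1 => (1 : ℤ)) 0) <
        2 * p := by
    rw [hw₁, hw₂, hw3, mul_one]
    generalize hk : k₁ + k₂ = k at *
    calc 3 * (2 * (k + 1) + 1) * 4 ^ (k + 1) * Nat.log 2 (4 * k₁ * k₂ + 9)
        ≤ 3 * (2 * (k + 1) + 1) * 4 ^ (k + 1) * (k + 1) := Nat.mul_le_mul_left _ hlog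
      _ < 2 * (3 * (k + 2) ^ 2 * 4 ^ (k + 1)) := by
          have h1 : 0 < 4 ^ (k + 1) := by positivity
          have h2 : (2 * (k + 1) + 1) * (k + 1) < 2 * (k + 2) ^ 2 := by nlinarith
          nlinarith [Nat.mul_lt_mul_of_pos_right h2 h1]
      _ ≤ 2 * p := Nat.mul_le_mul_left _ hbig
  have hval : value (fun _ : Fin 1 => (1 : ℤ)) 0 (fun _ => 1) = 1 := by simp [value]
  have heq : value a₁ 0 α₁ * value a₂ 0 α₂ =
      value (fun _ : Fin 1 => (1 : ℤ)) 0 (fun _ => 1) * (N : ℤ) := by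
    rw [hval, one_mul, ← hx, ← hy, h]
  have key : (N : ℤ) ∣ x ∨ (N : ℤ) ∣ y := by
    rw [hx, hy]
    rcases hN with hN | hN
    · have hodd : Odd p := by
        apply hp.odd_of_ne_two
        intro h2
        have h1 : 4 ^ 1 ≤ 4 ^ (k₁ + k₂ + 1) := Nat.pow_le_pow_right (by norm_num) (by omega)
        omega
      rw [hN] at heq ⊢
      exact fib_case hodd hn hb heq
    · rw [hN] at heq ⊢
      exact lucas_case hn hb heq
  have hunit : ∀ u v : ℤ, u * v = N → (N : ℤ) ∣ u → v = 1 ∨ v = -1 := by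
    intro u v huv hd
    obtain ⟨w, hw⟩ := hd
    have h1 : (N : ℤ) * (w * v) = N * 1 := by rw [← mul_assoc, ← hw, huv, mul_one]
    have h2 := mul_left_cancel₀ hN0 h1
    exact Int.isUnit_iff.1 (IsUnit.of_mul_eq_one w (by rw [mul_comm]; exact h2))
  rcases key with h1 | h1
  · exact Or.inr (hunit x y h h1)
  · exact Or.inl (hunit y x (by rw [mul_comm]; exact h) h1)

/-- **Euclid's lemma for the Fibonacci and Lucas numbers and sparse integers.** Let `n` have no odd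
prime factor `≤ 4 ^ K`. If a Fibonacci number `U_n`, `n` odd, or a Lucas number `V_n` divides the
product of two integers with few windows of Fibonacci digits, with a sparse quotient, then it
divides one of them. For primes `p` every nontrivial factorization of `U_p` and of `V_p` has at least
about `log_4 p` terms `± U_α` in its two factors. -/
theorem result :
    (∀ (n k₁ k₂ l : ℕ) (a₁ b₁ : Fin k₁ → ℤ) (α₁ : Fin k₁ → ℕ) (a₂ b₂ : Fin k₂ → ℤ)
      (α₂ : Fin k₂ → ℕ) (a₃ b₃ : Fin l → ℤ) (α₃ : Fin l → ℕ),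
      (∀ p : ℕ, p.Prime → p ≠ 2 → p ∣ n → 4 ^ (k₁ + k₂ + l) < p) →
      3 * (2 * (k₁ + k₂ + l) + 1) * 4 ^ (k₁ + k₂ + l) *
        Nat.log 2 (4 * weight a₁ b₁ * weight a₂ b₂ + 9 * weight a₃ b₃) < 2 * n →
      (Odd n → value a₁ b₁ α₁ * value a₂ b₂ α₂ = value a₃ b₃ α₃ * (Nat.fib n : ℤ) →
        (Nat.fib n : ℤ) ∣ value a₁ b₁ α₁ ∨ (Nat.fib n : ℤ) ∣ value a₂ b₂ α₂) ∧
      (value a₁ b₁ α₁ * value a₂ b₂ α₂ = value a₃ b₃ α₃ * (lucas n : ℤ) →
        (lucas n : ℤ) ∣ value a₁ b₁ α₁ ∨ (lucas n : ℤ) ∣ value a₂ b₂ α₂)) ∧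
    (∀ (p k₁ k₂ : ℕ) (x y : ℤ), p.Prime → 3 * (k₁ + k₂ + 2) ^ 2 * 4 ^ (k₁ + k₂ + 1) ≤ p →
      Sparse k₁ x → Sparse k₂ y → (x * y = (Nat.fib p : ℤ) ∨ x * y = (lucas p : ℤ)) →
      (x = 1 ∨ x = -1) ∨ (y = 1 ∨ y = -1)) := by
  refine ⟨?_, ?_⟩
  · intro n k₁ k₂ l a₁ b₁ α₁ a₂ b₂ α₂ a₃ b₃ α₃ hn hbig
    exact ⟨fun ho h => fib_case ho hn hbig h, fun h => lucas_case hn hbig h⟩
  · intro p k₁ k₂ x y hp hbig hx hy h
    rcases h with h | h
    · exact part3 hp (Or.inl rfl) hbig hx hy h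
    · exact part3 hp (Or.inr rfl) hbig hx hy h

end Pool.Agent.Results.MP_5893d7_nt.SparseEuclid
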